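import Pool.Agent.Run7.h567.PD.Iface

/-!
# Piece LI (project PD of helper567): linear independence of matrix coefficients
-/

set_option autoImplicit false

namespace Run7.h192.PD

open Matrix Run7.h567.GO Run7.h567.PD

section

variable {E : Type} [Field E] {n : ℕ}

lemma mat_prime {m m' : Matrix (Fin n) (Fin n) E} (hm : m ≠ 0) (hm' : m' ≠ 0) :
    ∃ x : Matrix (Fin n) (Fin n) E, m * x * m' ≠ 0 := by
  have h1 : ∃ i k, m i k ≠ 0 := by
    by_contra h
    push Not at h
    exact hm (by ext i k; exact h i k)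
  have h2 : ∃ l j, m' l j ≠ 0 := by
    by_contra h
    push Not at h
    exact hm' (by ext i k; exact h i k)
  obtain ⟨i, k, hik⟩ := h1
  obtain ⟨l, j, hlj⟩ := h2
  refine ⟨Matrix.single k l (1 : E), fun h => ?_⟩
  have h3 : (m * (Matrix.single k l (1 : E) : Matrix (Fin n) (Fin n) E) * m' : Matrix (Fin n) (Fin n) E) i j =
      m i k * m' l j := by
    rw [Matrix.mul_apply]
    rw [Finset.sum_eq_single l]
    · rw [Matrix.mul_single_apply_same, mul_one]
    · intro b _ hb
      rw [Matrix.mul_single_apply_of_ne (hbj := hb), zero_mul]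
    · intro h
      exact absurd (Finset.mem_univ _) h
  rw [h] at h3
  exact (mul_ne_zero hik hlj) h3.symm

lemma trace_zero {M : Matrix (Fin n) (Fin n) E}
    (h : ∀ X : Matrix (Fin n) (Fin n) E, (X * M).trace = 0) : M = 0 := by
  ext i j
  have h1 := h (Matrix.single j i (1 : E))
  rw [Matrix.trace_single_mul] at h1
  simpa using h1

end

/-- Piece LI. -/
theorem t_LI : S_BURN → S_ANN → S_LI := by
  intro hB hA Γ _ E _ _ n S J k T hS hT Z Y hZ
  have hsurj := hB Γ E n S hS
  -- separating elements
  have hsep : ∀ j, ∃ a, alg (T j) a = 0 ∧ alg S a ≠ 0 := by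
    intro j
    by_contra h
    push Not at h
    exact hT j (hA Γ E n (k j) S (T j) hS h)
  have hne : Nonempty (Fin n) := ⟨⟨0, hS.1⟩⟩
  have hall : ∀ F : Finset (Fin J), ∃ a, (∀ j ∈ F, alg (T j) a = 0) ∧ alg S a ≠ 0 := by
    classical
    intro F
    induction F using Finset.induction_on with
    | empty =>
      refine ⟨1, by simp, ?_⟩
      rw [map_one]
      exact one_ne_zero
    | insert j F hj ih =>
      obtain ⟨a, ha1, ha2⟩ := ih
      obtain ⟨b, hb1, hb2⟩ := hsep j
      obtain ⟨x, hx⟩ := mat_prime ha2 hb2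
      obtain ⟨c, rfl⟩ := hsurj x
      refine ⟨a * c * b, ?_, ?_⟩
      · intro i hi
        rw [map_mul, map_mul]
        rcases Finset.mem_insert.1 hi with rfl | hi
        · rw [hb1, mul_zero]
        · rw [ha1 i hi, zero_mul, zero_mul]
      · rw [map_mul, map_mul]
        exact hx
  -- the relation on the group algebra
  have hext : ∀ a : MonoidAlgebra E Γ,
      (alg S a * Z).trace = ∑ j, (alg (T j) a * Y j).trace := by
    intro a
    induction a using MonoidAlgebra.induction_linear with
    | zero => simp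
    | add f g hf hg =>
      simp only [map_add, add_mul, Matrix.trace_add, hf, hg, Finset.sum_add_distrib]
    | single g r =>
      have h1 : ∀ (m : ℕ) (R : MRep Γ E m), alg R (MonoidAlgebra.single g r) = r • R g := by
        intro m R
        simp [alg, MonoidAlgebra.lift_single]
      simp only [h1, Matrix.smul_mul, Matrix.trace_smul, hZ g, Finset.smul_sum]
  obtain ⟨a, ha1, ha2⟩ := hall Finset.univ
  by_contra hZ0
  obtain ⟨y, hy⟩ := mat_prime ha2 hZ0
  refine hy (trace_zero fun X => ?_)
  obtain ⟨x, rfl⟩ := hsurj X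
  obtain ⟨c, rfl⟩ := hsurj y
  have h1 := hext (x * a * c)
  rw [map_mul, map_mul] at h1
  rw [← mul_assoc, ← mul_assoc, h1]
  refine Finset.sum_eq_zero fun j _ => ?_
  rw [map_mul, map_mul, ha1 j (Finset.mem_univ _), mul_zero, zero_mul, zero_mul,
    Matrix.trace_zero]

end Run7.h192.PD
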